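import Mathlib

namespace Pool.Agent.Results.MP_f1a2b2_co.Example

/-- `ℕ` splits into infinite sets `I`, `Iᶜ` such that reading `x` along either gives `x`. -/
def SelfShuffling {A : Type} (x : ℕ → A) : Prop :=
  ∃ I : Set ℕ, I.Infinite ∧ Iᶜ.Infinite ∧ (∀ n, x (Nat.nth (· ∈ I) n) = x n) ∧
    ∀ n, x (Nat.nth (· ∈ Iᶜ) n) = x n

/-- The shift orbit closure, in the product of discrete topologies. -/
def orbitClosure {A : Type} (x : ℕ → A) : Set (ℕ → A) :=
  letI : TopologicalSpace A := ⊥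
  closure {y | ∃ n, y = fun i => x (i + n)}

def Alt (e : ℕ → Bool) : Prop := ∀ n, e (n + 1) = !e n

def Good : ℕ → (ℕ → Bool) → Prop
  | 0, _ => True
  | k + 1, T => (Alt (fun m => T (2 * m)) ∧ Good k (fun m => T (2 * m + 1))) ∨
      (Alt (fun m => T (2 * m + 1)) ∧ Good k (fun m => T (2 * m)))

lemma good_shift (k : ℕ) : ∀ T, Good k T → Good k (fun i => T (i + 1)) := by
  induction k with
  | zero => exact fun _ _ => trivial
  | succ k ih =>
    rintro T (⟨h1, h2⟩ | ⟨h1, h2⟩)
    · exact Or.inr ⟨fun n => h1 (n + 1), h2⟩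
    · exact Or.inl ⟨h1, ih _ h2⟩

lemma alt_closed (f : ℕ → ℕ) : IsClosed {T : ℕ → Bool | Alt (fun m => T (f m))} := by
  simp only [Alt, Set.ofPred_forall]
  exact isClosed_iInter fun n => isClosed_eq (continuous_apply _)
    ((continuous_of_discreteTopology (f := fun b : Bool => !b)).comp (continuous_apply _))

lemma good_closed (k : ℕ) : ∀ f : ℕ → ℕ, IsClosed {T : ℕ → Bool | Good k (fun m => T (f m))} := by
  induction k with
  | zero => exact fun _ => isClosed_univ
  | succ k ih =>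
    intro f
    exact ((alt_closed fun m => f (2 * m)).inter (ih fun m => f (2 * m + 1))).union
      ((alt_closed fun m => f (2 * m + 1)).inter (ih fun m => f (2 * m)))

def S (e T : ℕ → Bool) (p : ℕ → Prop) (a b : ℕ → ℕ) : Prop :=
  a 0 = 0 ∧ b 0 = 0 ∧ ∀ n,
    (p n → a (n + 1) = a n + 1 ∧ b (n + 1) = b n ∧ e n = e (a n) ∧ T n = T (a n)) ∧
    (¬ p n → a (n + 1) = a n ∧ b (n + 1) = b n + 1 ∧ e n = e (b n) ∧ T n = T (b n))

lemma alt_ne {e : ℕ → Bool} (h : Alt e) (m l : ℕ) : e (2 * m + 1) ≠ e (2 * l) := by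
  have h0 : ∀ m, e (2 * m) = e 0 := by
    intro m
    induction m with
    | zero => rfl
    | succ m ih => rw [show 2 * (m + 1) = 2 * m + 1 + 1 by ring, h, h, ih, Bool.not_not]
  rw [h, h0, h0 l]
  cases e 0 <;> simp

lemma half {e T : ℕ → Bool} {p : ℕ → Prop} {a b : ℕ → ℕ} (he : Alt e) (h : S e T p a b) :
    (∀ m, p (2 * m + 1) ↔ p (2 * m)) ∧ S (fun m => T (2 * m)) (fun m => T (2 * m + 1))
      (fun m => p (2 * m)) (fun m => a (2 * m) / 2) (fun m => b (2 * m) / 2) := by
  obtain ⟨h1, h2, h3⟩ := h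
  have key : ∀ m, a (2 * m) % 2 = 0 → b (2 * m) % 2 = 0 → (p (2 * m + 1) ↔ p (2 * m)) := by
    intro m ha hb
    constructor
    · intro q
      by_contra q'
      have c := ((h3 _).1 q).2.2.1
      rw [((h3 _).2 q').1, ← Nat.mul_div_cancel' (Nat.dvd_of_mod_eq_zero ha)] at c
      exact alt_ne he _ _ c
    · intro q
      by_contra q'
      have c := ((h3 _).2 q').2.2.1
      rw [((h3 _).1 q).2.1, ← Nat.mul_div_cancel' (Nat.dvd_of_mod_eq_zero hb)] at c
      exact alt_ne he _ _ c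
  have ev : ∀ m, a (2 * m) % 2 = 0 ∧ b (2 * m) % 2 = 0 := by
    intro m
    induction m with
    | zero => simp [h1, h2]
    | succ m ih =>
      have k := key m ih.1 ih.2
      rw [show 2 * (m + 1) = 2 * m + 1 + 1 by ring]
      by_cases q : p (2 * m)
      · have c := (h3 _).1 q
        have d := (h3 _).1 (k.2 q)
        omega
      · have c := (h3 _).2 q
        have d := (h3 _).2 (fun r => q (k.1 r))
        omega
  refine ⟨fun m => key m (ev m).1 (ev m).2, by simp [h1], by simp [h2], fun m => ?_⟩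
  have k := key m (ev m).1 (ev m).2
  obtain ⟨ea, eb⟩ := ev m
  simp only [show 2 * (m + 1) = 2 * m + 1 + 1 by ring]
  constructor
  · intro q
    obtain ⟨c1, c2, -, c4⟩ := (h3 _).1 q
    obtain ⟨d1, d2, -, d4⟩ := (h3 _).1 (k.2 q)
    refine ⟨by omega, by omega, ?_, ?_⟩
    · rw [c4, Nat.mul_div_cancel' (Nat.dvd_of_mod_eq_zero ea)]
    · rw [d4, c1, Nat.mul_div_cancel' (Nat.dvd_of_mod_eq_zero ea)]
  · intro q
    obtain ⟨c1, c2, -, c4⟩ := (h3 _).2 q
    obtain ⟨d1, d2, -, d4⟩ := (h3 _).2 (fun r => q (k.1 r))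
    refine ⟨by omega, by omega, ?_, ?_⟩
    · rw [c4, Nat.mul_div_cancel' (Nat.dvd_of_mod_eq_zero eb)]
    · rw [d4, c2, Nat.mul_div_cancel' (Nat.dvd_of_mod_eq_zero eb)]

lemma const (k : ℕ) : ∀ (e T : ℕ → Bool) (p : ℕ → Prop) (a b : ℕ → ℕ), Alt e → Good k T →
    S e T p a b → ∀ n < 2 ^ k, p n ↔ p 0 := by
  induction k with
  | zero =>
    intro e T p a b _ _ _ n hn
    rw [show n = 0 by omega]
  | succ k ih =>
    intro e T p a b he hg hs n hn
    obtain ⟨h1, h2⟩ := half he hs
    have h3 : p (2 * (n / 2)) ↔ p 0 := by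
      rcases hg with ⟨g1, g2⟩ | ⟨g1, g2⟩
      · exact ih _ _ _ _ _ g1 g2 h2 (n / 2) (by omega)
      · refine ih _ _ (fun m => p (2 * m)) (fun m => a (2 * m) / 2) (fun m => b (2 * m) / 2) g1 g2
          ⟨h2.1, h2.2.1, fun m => ⟨fun q => ?_, fun q => ?_⟩⟩ (n / 2) (by omega)
        · obtain ⟨c1, c2, c3, c4⟩ := (h2.2.2 m).1 q
          exact ⟨c1, c2, c4, c3⟩
        · obtain ⟨c1, c2, c3, c4⟩ := (h2.2.2 m).2 q
          exact ⟨c1, c2, c4, c3⟩
    rw [← h3]
    rcases Nat.mod_two_eq_zero_or_one n with q | q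
    · rw [show 2 * (n / 2) = n by omega]
    · rw [← h1, show 2 * (n / 2) + 1 = n by omega]

def pf (n : ℕ) : Bool := if n % 2 = 0 then decide (n / 2 % 2 = 1) else pf (n / 2)
decreasing_by omega

lemma alt_par : Alt (fun m => decide (m % 2 = 1)) := by
  intro n
  rcases Nat.mod_two_eq_zero_or_one n with q | q <;> simp [Nat.add_mod, q]

lemma pf_good (k : ℕ) : Good k pf := by
  induction k with
  | zero => trivial
  | succ k ih =>
    have h1 : (fun m => pf (2 * m)) = fun m => decide (m % 2 = 1) := by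
      funext m
      rw [pf, if_pos (by omega), show 2 * m / 2 = m by omega]
    have h2 : (fun m => pf (2 * m + 1)) = pf := by
      funext m
      rw [pf, if_neg (by omega), show (2 * m + 1) / 2 = m by omega]
    exact Or.inl ⟨h1 ▸ alt_par, h2.symm ▸ ih⟩

theorem result : ∃ (A : Type) (_ : Fintype A) (x : ℕ → A),
    ∀ y ∈ orbitClosure x, ¬ SelfShuffling y := by
  classical
  refine ⟨Bool × Bool, inferInstance, fun n => (decide (n % 2 = 1), pf n), fun y hy => ?_⟩
  have hy' : Alt (fun n => (y n).1) ∧ ∀ k, Good k (fun n => (y n).2) := by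
    letI : TopologicalSpace (Bool × Bool) := ⊥
    have : DiscreteTopology (Bool × Bool) := ⟨rfl⟩
    have c1 : Continuous (fun (z : ℕ → Bool × Bool) n => (z n).1) := continuous_pi fun n =>
      (continuous_of_discreteTopology (f := fun b : Bool × Bool => b.1)).comp (continuous_apply n)
    have c2 : Continuous (fun (z : ℕ → Bool × Bool) n => (z n).2) := continuous_pi fun n =>
      (continuous_of_discreteTopology (f := fun b : Bool × Bool => b.2)).comp (continuous_apply n)
    have sh : ∀ k n, Good k (fun i => pf (i + n)) := by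
      intro k n
      induction n with
      | zero => exact pf_good k
      | succ n ih =>
        have := good_shift k _ ih
        simpa only [add_assoc, add_comm 1 n] using this
    refine ⟨closure_minimal ?_ ((alt_closed id).preimage c1) hy,
      fun k => closure_minimal ?_ ((good_closed k id).preimage c2) hy⟩
    · rintro _ ⟨n, rfl⟩ i
      have := alt_par (i + n)
      simpa only [id, add_right_comm i 1 n] using this
    · rintro _ ⟨n, rfl⟩
      exact sh k n
  rintro ⟨I, h1, h2, h3, h4⟩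
  have hs : S (fun n => (y n).1) (fun n => (y n).2) (· ∈ I) (Nat.count (· ∈ I))
      (Nat.count (· ∈ Iᶜ)) := by
    refine ⟨rfl, rfl, fun n => ⟨fun q => ?_, fun q => ?_⟩⟩
    · have := h3 (Nat.count (· ∈ I) n)
      rw [Nat.nth_count (p := (· ∈ I)) q] at this
      simp [Nat.count_succ, q, this]
    · have := h4 (Nat.count (· ∈ Iᶜ) n)
      rw [Nat.nth_count (p := (· ∈ Iᶜ)) q] at this
      refine ⟨by simp [Nat.count_succ, q], by simp [Nat.count_succ, q], ?_, ?_⟩ <;>
        simp only [this]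
  have hc : ∀ n, n ∈ I ↔ 0 ∈ I := fun n =>
    const n _ _ _ _ _ hy'.1 (hy'.2 n) hs n Nat.lt_two_pow_self
  obtain ⟨u, hu⟩ := h1.nonempty
  obtain ⟨v, hv⟩ := h2.nonempty
  exact hv ((hc v).2 ((hc u).1 hu))

end Pool.Agent.Results.MP_f1a2b2_co.Example
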